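import Pool.Agent.N683.SL.Rel

/-!
# Stark's conjecture over large fields: the reduction for classes of characters and defect functions
-/

set_option autoImplicit false

namespace Pool.Agent.N683.SL

open Pool.Agent.N770.SK NumberField IntermediateField

/-- the number field `K` has at least `N` complex places -/
def ManyComplex (N : ℕ) (K : Sub) : Prop := ∀ _ : NumberField K, N ≤ InfinitePlace.nrComplexPlaces K

/-- `θ` is induced from a one-dimensional character `f` of a number field `K' ⊇ K`, where `K'` is totally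
complex with at least `N` complex places, or `f` has the values `1` and `-1` -/
def BasicLarge (N : ℕ) (K : Sub) (θ : GQ → ℂ) : Prop :=
  ∃ K', K ≤ K' ∧ IsNF K' ∧ ∃ f, IsOneDim K' f ∧ ((TotComplex K' ∧ ManyComplex N K') ∨ IsQuadratic K' f) ∧
    θ = IndK K K' f

/-- `θ` is an integral combination of characters induced from one-dimensional characters of totally complex
number fields `K' ⊇ K` with at least `N` complex places, and from characters of order at most two of number fields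
`K' ⊇ K` -/
def InGenLarge (N : ℕ) (K : Sub) (θ : GQ → ℂ) : Prop := θ ∈ AddSubgroup.closure {f | BasicLarge N K f}

/-- `θ` is an integral combination of characters induced from one-dimensional characters of number fields
`K' ⊇ K` with at least `N` complex places, which are totally complex if `K` is totally complex -/
def InLarge (N : ℕ) (K : Sub) (θ : GQ → ℂ) : Prop :=
  θ ∈ AddSubgroup.closure {θ | ∃ K', K ≤ K' ∧ IsNF K' ∧ ManyComplex N K' ∧ (TotComplex K → TotComplex K') ∧
    ∃ f, IsOneDim K' f ∧ θ = IndK K K' f}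

/-- `D` is trivial on the one-dimensional characters of the number fields with at least `N` complex places -/
def TrivialMany (N : ℕ) (D : Sub → (GQ → ℂ) → ℂˣ) : Prop :=
  ∀ K, IsNF K → ManyComplex N K → ∀ f, IsOneDim K f → D K f = 1

/-- `D` is trivial on the one-dimensional characters of the totally complex number fields with at least `N`
complex places -/
def TrivialComplexMany (N : ℕ) (D : Sub → (GQ → ℂ) → ℂˣ) : Prop :=
  ∀ K, IsNF K → TotComplex K → ManyComplex N K → ∀ f, IsOneDim K f → D K f = 1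

lemma totComplex_mono {K K' : Sub} (h : K ≤ K') (hK : TotComplex K) : TotComplex K' :=
  ⟨fun u => hK.false (u.comp (IntermediateField.inclusion h : K →+* K'))⟩

lemma LargeOver.many {N : ℕ} {K K' : Sub} (h : LargeOver N K K') : ManyComplex N K' := fun hn => (h.2.2.2 hn).le

lemma GK_le {K K' : Sub} (h : K ≤ K') : GK K' ≤ GK K := IntermediateField.fixingSubgroup_le h

lemma isOneDim_res {K K' : Sub} (hK' : IsNF K') (h : K ≤ K') {f : GQ → ℂ} (hf : IsOneDim K f) :
    IsOneDim K' (resK K' f) := by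
  obtain ⟨χ, hχ, rfl⟩ := hf
  refine ⟨res (GK_le h) χ, hχ.res (GK_le h) (GK_open hK'), ?_⟩
  rw [lin_resK (GK_le h)]

/-- transitivity of induction for fields -/
lemma IndK_IndK {K K' K'' : Sub} (hK' : IsNF K') (hK'' : IsNF K'') (h : K ≤ K') (h' : K' ≤ K'') {f : GQ → ℂ}
    (hf : IsOneDim K'' f) : IndK K K' (IndK K' K'' f) = IndK K K'' f := by
  obtain ⟨χ, hχ, rfl⟩ := hf
  have h1 : IsOpen (GK K' : Set GQ) := GK_open hK'
  have h2 : IsOpen (GK K'' : Set GQ) := GK_open hK''
  have _ : Finite (GK K ⧸ (GK K').subgroupOf (GK K)) := finite_quot h1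
  have _ : Finite (GK K' ⧸ (GK K'').subgroupOf (GK K')) := finite_quot h2
  have _ : Finite (GK K ⧸ (GK K'').subgroupOf (GK K)) := finite_quot h2
  exact Ind_Ind (GK_le h) (GK_le h') (lin_cl _ χ)

/-- induction as a homomorphism -/
noncomputable def indHom (K K' : Sub) (hK' : IsNF K') : (GQ → ℂ) →+ (GQ → ℂ) :=
  haveI : Finite (GK K ⧸ (GK K').subgroupOf (GK K)) := finite_quot (GK_open hK')
  AddMonoidHom.mk' (Ind (GK K) (GK K')) (Ind_add (GK K) (GK K'))

lemma indHom_apply (K K' : Sub) (hK' : IsNF K') (f : GQ → ℂ) : indHom K K' hK' f = IndK K K' f := rfl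

/-- induced one-dimensional characters as combinations of characters induced from large fields -/
lemma ind_mem {N : ℕ} {K K' : Sub} (hK' : IsNF K') (h : K ≤ K') {f : GQ → ℂ} (hf : IsOneDim K' f)
    (T : AddSubgroup (GQ → ℂ))
    (hT : ∀ K'', K' ≤ K'' → IsNF K'' → ManyComplex N K'' → ∀ f'', IsOneDim K'' f'' → IndK K K'' f'' ∈ T) :
    IndK K K' f ∈ T := by
  obtain ⟨r, F, e, hF, hrel⟩ := lin_large K' hK' N
  obtain ⟨χ, hχ, rfl⟩ := hf
  rw [hrel χ hχ, ← indHom_apply K K' hK', map_sum]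
  refine AddSubgroup.sum_mem _ fun j _ => ?_
  rw [map_zsmul, indHom_apply]
  refine AddSubgroup.zsmul_mem _ ?_ _
  have h1 : IsOneDim (F j) (resK (F j) (lin (GK K') χ)) := isOneDim_res (hF j).2.1 (hF j).1 ⟨χ, hχ, rfl⟩
  rw [IndK_IndK hK' (hF j).2.1 h (hF j).1 h1]
  exact hT _ (hF j).1 (hF j).2.1 (hF j).many _ h1

theorem inGen_iff_large (N : ℕ) {K : Sub} {θ : GQ → ℂ} : InGen K θ ↔ InGenLarge N K θ := by
  constructor
  · intro h
    have h1 : AddSubgroup.closure {f | Basic K f} ≤ AddSubgroup.closure {f | BasicLarge N K f} := by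
      rw [AddSubgroup.closure_le]
      rintro _ ⟨K', hKK', hK', f, hf, hc, rfl⟩
      rcases hc with hc | hc
      · refine ind_mem (N := N) hK' hKK' hf _ fun K'' h1 h2 h3 f'' hf'' => ?_
        exact AddSubgroup.subset_closure ⟨K'', hKK'.trans h1, h2, f'', hf'',
          Or.inl ⟨totComplex_mono h1 hc, h3⟩, rfl⟩
      · exact AddSubgroup.subset_closure ⟨K', hKK', hK', f, hf, Or.inr hc, rfl⟩
    exact h1 h
  · intro h
    have h1 : AddSubgroup.closure {f | BasicLarge N K f} ≤ AddSubgroup.closure {f | Basic K f} := by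
      refine AddSubgroup.closure_mono ?_
      rintro _ ⟨K', hKK', hK', f, hf, hc, rfl⟩
      exact ⟨K', hKK', hK', f, hf, hc.imp And.left id, rfl⟩
    exact h1 h

/-- Brauer's theorem with large fields -/
theorem inLarge (N : ℕ) {K : Sub} (hK : IsNF K) {θ : GQ → ℂ} (hθ : IsVirt K θ) : InLarge N K θ := by
  have h2 : VC (GK K) ≤ AddSubgroup.closure {θ | ∃ K', K ≤ K' ∧ IsNF K' ∧ ManyComplex N K' ∧
      (TotComplex K → TotComplex K') ∧ ∃ f, IsOneDim K' f ∧ θ = IndK K K' f} := by
    rw [VC, AddSubgroup.closure_le]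
    rintro f ⟨n, ρ, hρ, hf⟩
    refine hf.brauer hρ _ fun W hW hWU ψ hψ _ => ?_
    have hWf : GK (fixedField W) = W := fixing_fixed hW
    have hKW : K ≤ fixedField W := by
      have h3 := fixed_mono (GK_open hK) hWU
      rwa [fixed_GK] at h3
    have h4 : ∀ (K' : Sub), K ≤ K' → IsNF K' → ∀ (W : Subgroup GQ), GK K' = W → ∀ ψ : W →* ℂˣ, OpenKer ψ →
        Ind (GK K) W (lin W ψ) ∈ AddSubgroup.closure {θ | ∃ K', K ≤ K' ∧ IsNF K' ∧ ManyComplex N K' ∧
      (TotComplex K → TotComplex K') ∧ ∃ f, IsOneDim K' f ∧ θ = IndK K K' f} := by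
      rintro K' hKK' hK' _ rfl ψ hψ
      refine ind_mem (N := N) hK' hKK' ⟨ψ, hψ, rfl⟩ _ fun K'' h1 h2 h3 f'' hf'' => ?_
      exact AddSubgroup.subset_closure ⟨K'', hKK'.trans h1, h2, h3,
        fun hc => totComplex_mono (hKK'.trans h1) hc, f'', hf'', rfl⟩
    exact h4 _ hKW (finite_fixed hW) W hWf ψ hψ
  exact h2 hθ

/-- the virtual characters of `K` with trivial defect -/
lemma mem_TD' {D : Sub → (GQ → ℂ) → ℂˣ} (h : IsDefect D) {K : Sub} (hK : IsNF K) {θ : GQ → ℂ} :
    θ ∈ TD D (GK K) ↔ IsVirt K θ ∧ D K θ = 1 := by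
  rw [mem_TD h (GK_open hK), fixed_GK]
  rfl

lemma ind_TD {D : Sub → (GQ → ℂ) → ℂˣ} (h : IsDefect D) {K K' : Sub} (hK : IsNF K) (hK' : IsNF K') (hKK' : K ≤ K')
    {f : GQ → ℂ} (hf : IsOneDim K' f) (hD : D K' f = 1) : IndK K K' f ∈ TD D (GK K) := by
  obtain ⟨χ, hχ, rfl⟩ := hf
  exact TD_ind h (GK K) (GK K') (GK_open hK) (GK_open hK') (GK_le hKK') _ (lin_cl _ χ)
    ((mem_TD' h hK').2 ⟨lin_vc hχ, hD⟩)

/-- the product formula for the defects -/
theorem defect_prod {D : Sub → (GQ → ℂ) → ℂˣ} (h : IsDefect D) {K : Sub} (hK : IsNF K) {r : ℕ} {F : Fin r → Sub}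
    {e : Fin r → ℤ} (hF : ∀ j, K ≤ F j ∧ IsNF (F j)) {f : GQ → ℂ} (hf : IsOneDim K f)
    (hrel : f = ∑ j, e j • IndK K (F j) (resK (F j) f)) : D K f = ∏ j, D (F j) (resK (F j) f) ^ e j := by
  classical
  have hv : ∀ j, IsVirt K (IndK K (F j) (resK (F j) f)) := by
    intro j
    obtain ⟨χ, hχ, h1⟩ := isOneDim_res (hF j).2 (hF j).1 hf
    rw [h1]
    exact VC.ind (GK_open hK) (GK_open (hF j).2) (GK_le (hF j).1) (lin_vc hχ)
  have hneg : ∀ θ, IsVirt K θ → D K (-θ) = (D K θ)⁻¹ := by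
    intro θ hθ
    have h1 := h.add K hK θ hθ (-θ) (neg_mem hθ)
    rw [add_neg_cancel, h.zero hK] at h1
    exact (inv_eq_of_mul_eq_one_right h1.symm).symm
  have hnat : ∀ θ, IsVirt K θ → ∀ n : ℕ, D K (n • θ) = D K θ ^ n := by
    intro θ hθ n
    induction n with
    | zero => rw [zero_smul, pow_zero, h.zero hK]
    | succ n ih =>
      rw [succ_nsmul, h.add K hK _ (nsmul_mem hθ n) _ hθ, ih, pow_succ]
  have hint : ∀ θ, IsVirt K θ → ∀ n : ℤ, D K (n • θ) = D K θ ^ n := by
    intro θ hθ n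
    cases n with
    | ofNat n =>
      rw [Int.ofNat_eq_natCast, natCast_zsmul, zpow_natCast]
      exact hnat θ hθ n
    | negSucc n =>
      rw [negSucc_zsmul, zpow_negSucc, hneg _ (nsmul_mem hθ _), hnat θ hθ]
  have hsum : ∀ s : Finset (Fin r), D K (∑ j ∈ s, e j • IndK K (F j) (resK (F j) f)) =
      ∏ j ∈ s, D (F j) (resK (F j) f) ^ e j := by
    intro s
    induction s using Finset.induction_on with
    | empty => rw [Finset.sum_empty, Finset.prod_empty, h.zero hK]
    | insert j s hj ih =>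
      rw [Finset.sum_insert hj, Finset.prod_insert hj,
        h.add K hK _ (zsmul_mem (hv j) _) _ (AddSubgroup.sum_mem _ fun i _ => zsmul_mem (hv i) _), ih,
        hint _ (hv j)]
      congr 2
      refine h.ind K (F j) (hF j).2 (hF j).1 _ ?_
      obtain ⟨χ, hχ, h1⟩ := isOneDim_res (hF j).2 (hF j).1 hf
      rw [h1]
      exact lin_vc hχ
  conv_lhs => rw [hrel]
  exact hsum Finset.univ

/-- trivial over the large fields, trivial everywhere -/
theorem trivial_of_many {N : ℕ} {D : Sub → (GQ → ℂ) → ℂˣ} (h : IsDefect D) (hN : TrivialMany N D) {K : Sub}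
    (hK : IsNF K) {θ : GQ → ℂ} (hθ : IsVirt K θ) : D K θ = 1 := by
  have h1 : AddSubgroup.closure {θ | ∃ K', K ≤ K' ∧ IsNF K' ∧ ManyComplex N K' ∧
      (TotComplex K → TotComplex K') ∧ ∃ f, IsOneDim K' f ∧ θ = IndK K K' f} ≤ TD D (GK K) := by
    rw [AddSubgroup.closure_le]
    rintro _ ⟨K', h1, h2, h3, -, f, hf, rfl⟩
    exact ind_TD h hK h2 h1 hf (hN K' h2 h3 f hf)
  exact ((mem_TD' h hK).1 (h1 (inLarge N hK hθ))).2

/-- trivial over the large totally complex fields, trivial over all totally complex fields -/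
theorem complex_of_many {N : ℕ} {D : Sub → (GQ → ℂ) → ℂˣ} (h : IsDefect D) (hN : TrivialComplexMany N D) {K : Sub}
    (hK : IsNF K) (hc : TotComplex K) {θ : GQ → ℂ} (hθ : IsVirt K θ) : D K θ = 1 := by
  have h1 : AddSubgroup.closure {θ | ∃ K', K ≤ K' ∧ IsNF K' ∧ ManyComplex N K' ∧
      (TotComplex K → TotComplex K') ∧ ∃ f, IsOneDim K' f ∧ θ = IndK K K' f} ≤ TD D (GK K) := by
    rw [AddSubgroup.closure_le]
    rintro _ ⟨K', h1, h2, h3, h4, f, hf, rfl⟩
    exact ind_TD h hK h2 h1 hf (hN K' h2 (h4 hc) h3 f hf)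
  exact ((mem_TD' h hK).1 (h1 (inLarge N hK hθ))).2

end Pool.Agent.N683.SL
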