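import Pool.Agent.N770.SK.Final2
import Pool.Agent.N599.HO.List

/-!
# Characters of number fields as combinations of characters induced from large fields
-/

set_option autoImplicit false

namespace Pool.Agent.N683.SL

open Pool.Agent.N770.SK Pool.Agent.N19.BR Pool.Agent.R433.MD NumberField IntermediateField
open Pool.Agent.N599.HO (Pure good_pure complex_of_degree)

section emb

variable (K : Sub) {F : Type} [Field F] [Algebra K F]

/-- the action of `Gal(Qb/K)` on the embeddings over `K` of an extension `F` of `K` -/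
noncomputable instance act : MulAction (GK K) (F →ₐ[K] Qb) where
  smul σ τ := ((IntermediateField.fixingSubgroupEquiv K σ : Qb ≃ₐ[K] Qb) : Qb →ₐ[K] Qb).comp τ
  one_smul τ := by
    apply AlgHom.ext
    intro x
    change (IntermediateField.fixingSubgroupEquiv K 1 : Qb ≃ₐ[K] Qb) (τ x) = τ x
    rw [map_one]
    rfl
  mul_smul σ σ' τ := by
    apply AlgHom.ext
    intro x
    change (IntermediateField.fixingSubgroupEquiv K (σ * σ') : Qb ≃ₐ[K] Qb) (τ x) = _
    rw [map_mul]
    rfl

lemma smul_apply (σ : GK K) (τ : F →ₐ[K] Qb) (x : F) : (σ • τ) x = (σ : GQ) (τ x) := rfl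

/-- the image of an embedding -/
noncomputable def fld (τ : F →ₐ[K] Qb) : Sub := τ.fieldRange.restrictScalars ℚ

lemma mem_fld (τ : F →ₐ[K] Qb) (x : Qb) : x ∈ fld K τ ↔ ∃ y, τ y = x := by
  rw [fld, IntermediateField.mem_restrictScalars, AlgHom.mem_fieldRange]

lemma le_fld (τ : F →ₐ[K] Qb) : K ≤ fld K τ := by
  intro x hx
  rw [mem_fld]
  exact ⟨algebraMap K F ⟨x, hx⟩, τ.commutes _⟩

/-- the field `F` is isomorphic to its image -/
noncomputable def fldEquiv (τ : F →ₐ[K] Qb) : F ≃+* fld K τ :=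
  RingEquiv.ofBijective
    ({ toFun := fun x => ⟨τ x, (mem_fld K τ _).2 ⟨x, rfl⟩⟩
       map_one' := Subtype.ext (map_one τ)
       map_mul' := fun x y => Subtype.ext (map_mul τ x y)
       map_zero' := Subtype.ext (map_zero τ)
       map_add' := fun x y => Subtype.ext (map_add τ x y) } : F →+* fld K τ)
    ⟨fun x y h => τ.injective (congrArg Subtype.val h), fun z => by
      obtain ⟨y, hy⟩ := (mem_fld K τ _).1 z.2
      exact ⟨y, Subtype.ext hy⟩⟩

/-- the stabilizer of an embedding is the Galois group over its image -/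
lemma stab_eq (τ : F →ₐ[K] Qb) : stab (GK K) τ = GK (fld K τ) := by
  ext g
  constructor
  · rintro ⟨σ, hσ, rfl⟩
    rw [IntermediateField.mem_fixingSubgroup_iff]
    intro x hx
    obtain ⟨y, rfl⟩ := (mem_fld K τ x).1 hx
    have h1 : σ • τ = τ := hσ
    have h2 := DFunLike.congr_fun h1 y
    rw [smul_apply] at h2
    exact h2
  · intro hg
    have h1 : g ∈ GK K := IntermediateField.fixingSubgroup_le (le_fld K τ) hg
    refine ⟨⟨g, h1⟩, ?_, rfl⟩
    change (⟨g, h1⟩ : GK K) • τ = τ
    apply AlgHom.ext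
    intro y
    rw [smul_apply]
    exact (IntermediateField.mem_fixingSubgroup_iff _ _).1 hg _ ((mem_fld K τ _).2 ⟨y, rfl⟩)

end emb

/-- `K'` contains `K` and is a number field of degree `q` or `q ^ 2` over `K` for a prime number `q > N`, with more
than `N` complex places. -/
def LargeOver (N : ℕ) (K K' : Sub) : Prop :=
  K ≤ K' ∧ IsNF K' ∧ (∃ q : ℕ, q.Prime ∧ N < q ∧ (Module.finrank ℚ K' = Module.finrank ℚ K * q ∨
    Module.finrank ℚ K' = Module.finrank ℚ K * q ^ 2)) ∧
    ∀ _ : NumberField K', N < InfinitePlace.nrComplexPlaces K'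

/-- the restriction to `Gal(Qb/K')` of a function, extended by zero -/
noncomputable def resK (K' : Sub) (f : GQ → ℂ) (g : GQ) : ℂ :=
  open Classical in if g ∈ GK K' then f g else 0

lemma lin_resK {K K' : Sub} (h : GK K' ≤ GK K) (χ : GK K →* ℂˣ) :
    lin (GK K') (res h χ) = resK K' (lin (GK K) χ) := by
  funext g
  rw [resK]
  by_cases hg : g ∈ GK K'
  · rw [if_pos hg, lin_res h χ hg]
  · rw [if_neg hg, lin_not _ hg]

lemma large_fld {N : ℕ} {K : Sub} [hK : NumberField K] (Z : Ext K) (hZ : Pure N Z) (τ : Z.F →ₐ[K] Qb) :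
    LargeOver N K (fld K τ) := by
  obtain ⟨h1, q, hq, hqN, hdeg, -⟩ := hZ
  let e : Z.F ≃+* fld K τ := fldEquiv K τ
  let eQ : Z.F ≃ₗ[ℚ] fld K τ := { e.toAddEquiv with map_smul' := fun a x => map_rat_smul e a x }
  have hfd : FiniteDimensional ℚ (fld K τ) := Module.Finite.equiv eQ
  let alg : Algebra K (fld K τ) := ((e : Z.F →+* fld K τ).comp (algebraMap K Z.F)).toAlgebra
  let e' : Z.F ≃ₗ[K] fld K τ :=
    { e.toAddEquiv with
      map_smul' := fun a x => by
        change e (a • x) = a • e x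
        rw [Algebra.smul_def, Algebra.smul_def, map_mul]
        rfl }
  have hr : Module.finrank K (fld K τ) = Module.finrank K Z.F := (LinearEquiv.finrank_eq e').symm
  have hq3 : ∀ d : ℕ, Module.finrank K Z.F = d → Module.finrank ℚ (fld K τ) = Module.finrank ℚ K * d := by
    intro d hd
    have h2 : Module.finrank ℚ (fld K τ) = Module.finrank ℚ Z.F :=
      (LinearEquiv.finrank_eq eQ).symm
    rw [h2, ← hd, Module.finrank_mul_finrank]
  refine ⟨le_fld K τ, hfd, ⟨q, hq, by omega, ?_⟩, fun hnf => ?_⟩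
  · rcases hdeg with h2 | h2
    · exact Or.inl (hq3 _ h2)
    · right
      rw [hq3 _ h2, pow_two]
  · have h3 : Nat.card (fld K τ →+* ℝ) ≤ Nat.card (K →+* ℝ) := by
      refine le_trans (le_of_eq ?_) h1
      exact Nat.card_congr
        { toFun := fun u => u.comp (e : Z.F →+* fld K τ)
          invFun := fun u => u.comp (e.symm : fld K τ →+* Z.F)
          left_inv := fun u => by ext x; simp
          right_inv := fun u => by ext x; simp }
    rcases hdeg with h2 | h2
    · exact complex_of_degree (F := K) (hr.trans h2) h3 hqN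
    · exact complex_of_degree (F := K) (hr.trans h2) h3 (by nlinarith [hq.two_le])

/-- **The relation.** -/
theorem lin_large (K : Sub) (hK : IsNF K) (N : ℕ) :
    ∃ (r : ℕ) (F : Fin r → Sub) (e : Fin r → ℤ), (∀ j, LargeOver N K (F j)) ∧
      ∀ χ : GK K →* ℂˣ, OpenKer χ →
        lin (GK K) χ = ∑ j, e j • IndK K (F j) (resK (F j) (lin (GK K) χ)) := by
  classical
  have hfd : FiniteDimensional ℚ K := hK
  have hnf : NumberField K := { to_charZero := inferInstance, to_finiteDimensional := hfd }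
  obtain ⟨ι, hι, Z, e, hr, hP⟩ := exact_rel (K := K) (P := Pure N) fun p hp => good_pure p hp N K
  let Y : ι → Type := fun i => (Z i).F →ₐ[K] Qb
  have hYf : ∀ i, Finite (Y i) := fun i => by
    have : FiniteDimensional K (Z i).F := by
      have h0 : FiniteDimensional ℚ (Z i).F := inferInstance
      exact FiniteDimensional.right ℚ K (Z i).F
    exact inferInstanceAs (Finite ((Z i).F →ₐ[K] Qb))
  let _ : ∀ i, Fintype (Y i) := fun i => Fintype.ofFinite _
  let _ : ∀ i, Fintype (MulAction.orbitRel.Quotient (GK K) (Y i)) := fun i => Fintype.ofFinite _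
  let ι' : Type := Σ i : ι, MulAction.orbitRel.Quotient (GK K) (Y i)
  let _ : Fintype ι' := inferInstance
  let g : Fin (Fintype.card ι') ≃ ι' := (Fintype.equivFin ι').symm
  let F' : ι' → Sub := fun z => fld K (z.2.out : Y z.1)
  refine ⟨Fintype.card ι', fun j => F' (g j), fun j => e (g j).1,
    fun j => large_fld (Z (g j).1) (hP _) _, fun χ hχ => ?_⟩
  have hsum : ∑ j, e (g j).1 • IndK K (F' (g j)) (resK (F' (g j)) (lin (GK K) χ)) =
      ∑ z : ι', e z.1 • IndK K (F' z) (resK (F' z) (lin (GK K) χ)) :=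
    Fintype.sum_equiv g _ _ fun j => rfl
  rw [hsum, Fintype.sum_sigma]
  have h1 : ∀ i : ι, ∑ ω : MulAction.orbitRel.Quotient (GK K) (Y i),
      e i • IndK K (F' ⟨i, ω⟩) (resK (F' ⟨i, ω⟩) (lin (GK K) χ)) =
        e i • (pi (GK K) (Y i) * lin (GK K) χ) := by
    intro i
    rw [pi_mul (GK K) (Y i) χ, Finset.smul_sum]
    refine Finset.sum_congr rfl fun ω _ => ?_
    congr 1
    have h2 : GK (F' ⟨i, ω⟩) ≤ GK K := IntermediateField.fixingSubgroup_le (le_fld K _)
    rw [← lin_resK h2]
    have h3 : ∀ {W W' : Subgroup GQ} (_ : W' = W) (hW : W ≤ GK K) (hW' : W' ≤ GK K),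
        Ind (GK K) W (lin W (res hW χ)) = Ind (GK K) W' (lin W' (res hW' χ)) := by
      rintro W _ rfl hW hW'
      rfl
    exact h3 (stab_eq K (ω.out : Y i)) _ _
  rw [Finset.sum_congr rfl fun i _ => h1 i]
  funext σ
  rw [Finset.sum_apply]
  by_cases hσ : σ ∈ GK K
  · have h2 : ∀ i, (e i • (pi (GK K) (Y i) * lin (GK K) χ)) σ =
        ((e i * (cnt (Z i).F (IntermediateField.fixingSubgroupEquiv K ⟨σ, hσ⟩ : Qb ≃ₐ[K] Qb) : ℤ) : ℤ) : ℂ) *
          lin (GK K) χ σ := by
      intro i
      rw [Pi.smul_apply, Pi.mul_apply, zsmul_eq_mul, ← mul_assoc]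
      congr 1
      rw [pi, dif_pos hσ, cnt]
      push_cast
      congr 2
      refine Nat.card_congr (Equiv.subtypeEquivRight fun τ => ?_)
      constructor
      · intro h x
        exact DFunLike.congr_fun h x
      · intro h
        apply AlgHom.ext
        intro x
        exact h x
    rw [Finset.sum_congr rfl fun i _ => h2 i, ← Finset.sum_mul, ← Int.cast_sum,
      hr Qb (IntermediateField.fixingSubgroupEquiv K ⟨σ, hσ⟩ : Qb ≃ₐ[K] Qb)]
    simp
  · rw [lin_not _ hσ]
    refine (Finset.sum_eq_zero fun i _ => ?_).symm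
    rw [Pi.smul_apply, Pi.mul_apply, lin_not _ hσ, mul_zero, smul_zero]

end Pool.Agent.N683.SL
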